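import Mathlib
import Pool.Agent.V11307.Abel.Main

set_option autoImplicit false

namespace Pool.Agent.Results.MP_7fc841_nt.QTwo

open Finset Pool.Agent.V11307.Abel Pool.Agent.Helper857.Pad

/-- **Q2 of MP_7fc841 (and hence Q1)**: for every prime `p > 3` and every `r ≥ 1`,
`∑_{k < p^r} (2Nk-1) ((-1/N)_k/k!)^{2N} ≡ 0 (mod p^{2r+3})`, where `N = p^r - 1`. -/
theorem result : ∀ p : ℕ, p.Prime → 3 < p → ∀ r : ℕ, 1 ≤ r → ∀ N : ℕ, N = p^r - 1 →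
    ¬ p ∣ ((∑ k ∈ range (N+1), (2*(N:ℚ)*(k:ℚ) - 1) *
        ((ascPochhammer ℚ k).eval (-1/(N:ℚ)) / (k.factorial : ℚ))^(2*N)) / (p:ℚ)^(2*r+3)).den := by
  intro p hp h3 r hr n hn
  have : Fact p.Prime := ⟨hp⟩
  have hpos : 0 < p^r := pow_pos hp.pos r
  have hq : p^r = n + 1 := by omega
  have hnd : ¬ p ∣ n := n_ndvd hr hq
  have hn0 : (n:ℚ) ≠ 0 := N_ne hnd
  have h := conclude hr hq hnd (mainA hr hq hnd (by omega) (by omega))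
  have e1 : 1 + -(((n+1:ℕ)):ℚ)/(n:ℚ) = -1/(n:ℚ) := by push_cast; field_simp; ring
  have e : ∑ k ∈ range (n+1), (2*(n:ℚ)*(k:ℚ) - 1) *
        ((ascPochhammer ℚ k).eval (-1/(n:ℚ)) / (k.factorial : ℚ))^(2*n)
      = -(∑ k ∈ range (n+1), (1 + 2*(k:ℚ)/(1 + -(((n+1:ℕ)):ℚ)/n)) * t (-(((n+1:ℕ)):ℚ)/n) k^(2*n)) := by
    rw [← sum_neg_distrib]
    refine sum_congr rfl (fun k _ => ?_)
    rw [t_eq, e1]
    have : (1 + 2*(k:ℚ)/(-1/(n:ℚ))) = -(2*(n:ℚ)*(k:ℚ) - 1) := by field_simp; ring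
    rw [this]; ring
  rw [e]
  exact I_den h.neg

end Pool.Agent.Results.MP_7fc841_nt.QTwo
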